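import Pool.Agent.Helper16_XQ.StmtD
import Pool.Agent.Helper35_AEU.Inv
import Pool.Agent.Helper69_AEU.Lam

/-! Squad XQ, module LWX: law invariance. -/

set_option autoImplicit false

namespace Pool.Agent.XQ

open MeasureTheory Complex Filter Topology ProbabilityTheory Pool.Agent.H16Iso Pool.Agent.H62T
open Pool.Agent.H16F (Sublin ind)
open Pool.Agent.AEU
open Pool.Agent.AEU.H35 (sublin_ae sublin_scale lam_smul law_iso m0 ev_mb Zs_mv tr_mv mv_inj
  measurable_indZs momS Tr)

/-- the perimeter of the loop is almost everywhere measurable -/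
theorem aem_lam : AEMeasurable (fun ω : Sp => lam (hs ω)) PP := by
  classical
  have h0 : PP {ω | ¬ Sublin (hs ω)} = 0 := sublin_ae
  obtain ⟨N, hN, hNm, hN0⟩ := exists_measurable_superset_of_null h0
  have hj : StronglyMeasurable (Function.uncurry fun (θ : ℝ) (ω : Sp) =>
      Nᶜ.indicator (fun ω => hs ω (Complex.exp (θ * I))) ω) := by
    apply stronglyMeasurable_uncurry_of_continuous_of_stronglyMeasurable
    · intro ω
      by_cases hω : ω ∈ Nᶜ
      · simp only [Set.indicator_of_mem hω]
        have hs' : Sublin (hs ω) := by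
          by_contra hc
          exact hω (hN hc)
        exact (H69.sub_cont hs').comp H69.ee_cont
      · simp only [Set.indicator_of_notMem hω]
        exact continuous_const
    · intro θ
      exact ((momS.1 _).indicator hNm.compl).stronglyMeasurable
  have hi : StronglyMeasurable fun ω : Sp => ∫ θ in Set.Ioc (0 : ℝ) (2 * Real.pi),
      Nᶜ.indicator (fun ω => hs ω (Complex.exp (θ * I))) ω := by
    have := (hj.comp_measurable measurable_swap).integral_prod_right'
      (ν := volume.restrict (Set.Ioc (0 : ℝ) (2 * Real.pi)))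
    exact this
  refine ⟨_, hi.measurable, ?_⟩
  have : ∀ᵐ ω ∂PP, ω ∈ Nᶜ := by
    rw [ae_iff]
    simpa using hN0
  filter_upwards [this] with ω hω
  unfold lam
  rw [intervalIntegral.integral_of_le (by positivity)]
  simp only [Set.indicator_of_mem hω]

/-- the indicator of short loops -/
theorem aesm_ind_lam (t A : ℝ) :
    AEStronglyMeasurable (fun ω : Sp => ind (Real.sqrt t * lam (hs ω) < A)) PP := by
  obtain ⟨f, hf, hfe⟩ := aem_lam
  have hm : Measurable fun ω : Sp => ind (Real.sqrt t * f ω < A) := by
    unfold Pool.Agent.H16F.ind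
    exact Measurable.ite (measurableSet_lt (hf.const_mul _) measurable_const) measurable_const
      measurable_const
  refine ⟨_, hm.stronglyMeasurable, ?_⟩
  filter_upwards [hfe] with ω hω
  rw [hω]

theorem lam_m0 (g : Iso2) {h : ℂ → ℝ} (hh : Sublin h) : lam (m0 g h) = lam h := by
  rw [← H69.lam_mb g hh]
  have hm : Sublin (m0 g h) := by
    refine ⟨fun a b => ?_, fun c a hc => ?_⟩
    · unfold m0
      rw [map_add]
      exact hh.1 _ _
    · unfold m0
      rw [← Complex.real_smul, map_smul, Complex.real_smul]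
      exact hh.2 _ _ hc
  have e : mb g h = fun w => 1 * m0 g h w + 0 * m0 g h w + ip w (g 0) := by
    funext w
    unfold mb m0
    ring
  rw [e, H69.lam_lin hm hm]
  ring

theorem lwx : LwxStatement := by
  intro X Y S g A hSX hcard hunit hnp hSY hev t ht
  have hT : Tr S := ⟨hcard, hunit, hnp⟩
  obtain ⟨G, hG, hGω⟩ := law_iso g.linearIsometryEquiv.symm
  have hm : Measurable fun ω : Sp => ind (Ev Y (S.image (mv g)) fun u => Real.sqrt t * hs ω u) *
      Zs (S.image (mv g)) (fun u => Real.sqrt t * hs ω u) :=
    measurable_indZs (tr_mv hT g) hSY (fun (ω : Sp) u => Real.sqrt t * hs ω u)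
      fun u => (momS.1 u).const_mul _
  have hm2 := (aesm_ind_lam t A).mul hm.aestronglyMeasurable
  conv_rhs => rw [← hG.map_eq]
  rw [integral_map hG.measurable.aemeasurable (by rw [hG.map_eq]; exact hm2)]
  refine integral_congr_ae ?_
  filter_upwards [sublin_ae] with ω hω
  have e : (fun u => Real.sqrt t * hs (G ω) u) = m0 g fun u => Real.sqrt t * hs ω u := by
    funext u
    rw [hGω]
    rfl
  have e2 : lam (hs (G ω)) = lam (hs ω) := by
    have : hs (G ω) = m0 g (hs ω) := by
      funext u
      rw [hGω]
      rfl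
    rw [this, lam_m0 g hω]
  rw [e2]
  simp only [e]
  rw [Zs_mv]
  by_cases hA : Real.sqrt t * lam (hs ω) < A
  · have h2 := hev _ (sublin_scale hω t) (by rw [lam_smul]; exact hA)
    rw [ev_mb] at h2
    rw [H35.ind_congr h2]
  · rw [H16F.H10.ind_neg hA]
    ring

end Pool.Agent.XQ
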