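import Pool.Agent.Helper35_XQ.Stmt
import Pool.Agent.Helper95_SOS.Levy

/-! Squad XQ, module GI_LPI: Laplace transforms. -/

set_option autoImplicit false

namespace Pool.Agent.XQ.GI.H69

open MeasureTheory Complex Filter Topology Pool.Agent.H62T Pool.Agent.H60K Set
open scoped ENNReal NNReal

theorem gg_nonneg (t l : ℝ) : 0 ≤ gg t l := by unfold gg; positivity

theorem gg_meas (l : ℝ) : Measurable fun t => gg t l := by unfold gg; fun_prop

/-- the first passage density -/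
theorem lp_gg {κ l : ℝ} (hκ : 0 < κ) (hl : 0 < l) :
    IntegrableOn (fun t => Real.exp (-(κ ^ 2 * t)) * (l * gg t l) / t) (Ioi 0) ∧
      ∫ t in Ioi (0 : ℝ), Real.exp (-(κ ^ 2 * t)) * (l * gg t l) / t = Real.exp (-(l * κ)) := by
  set b := κ * l / 2 with hb
  have hb0 : 0 < b := by positivity
  set F : ℝ → ℝ := fun t => Real.exp (-(κ ^ 2 * t)) * (l * gg t l) / t with hF
  have hd : ∀ v ∈ Ioi (0 : ℝ), HasDerivWithinAt (fun v : ℝ => l ^ 2 / 4 * (v ^ 2)⁻¹)
      (-(l ^ 2 / (2 * v ^ 3))) (Ioi 0) v := by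
    intro v hv
    have hv0 : v ≠ 0 := ne_of_gt hv
    have h1 : HasDerivAt (fun v : ℝ => (v ^ 2)⁻¹) (-(2 * v) / (v ^ 2) ^ 2) v := by
      have h2 : HasDerivAt (fun v : ℝ => v ^ 2) (2 * v) v := by
        simpa using hasDerivAt_pow 2 v
      exact h2.inv (pow_ne_zero 2 hv0)
    have h3 := h1.const_mul (l ^ 2 / 4)
    refine (h3.congr_deriv ?_).hasDerivWithinAt
    field_simp
    ring
  have hinj : InjOn (fun v : ℝ => l ^ 2 / 4 * (v ^ 2)⁻¹) (Ioi 0) := by
    intro x hx y hy hxy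
    have hx0 : (0 : ℝ) < x := hx
    have hy0 : (0 : ℝ) < y := hy
    simp only at hxy
    have h1 : (x ^ 2)⁻¹ = (y ^ 2)⁻¹ := mul_left_cancel₀ (by positivity) hxy
    have h2 : x ^ 2 = y ^ 2 := inv_injective h1
    exact (pow_left_inj₀ hx0.le hy0.le two_ne_zero).1 h2
  have himg : (fun v : ℝ => l ^ 2 / 4 * (v ^ 2)⁻¹) '' Ioi 0 = Ioi 0 := by
    ext y
    constructor
    · rintro ⟨v, hv, rfl⟩
      have hv0 : (0 : ℝ) < v := hv
      simp only [mem_Ioi]
      positivity
    · intro hy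
      have hy0 : (0 : ℝ) < y := hy
      refine ⟨l / (2 * √y), by simp only [mem_Ioi]; positivity, ?_⟩
      simp only
      rw [div_pow, mul_pow, Real.sq_sqrt hy0.le]
      field_simp
      norm_num
  have e : ∀ v ∈ Ioi (0 : ℝ), |-(l ^ 2 / (2 * v ^ 3))| • F (l ^ 2 / 4 * (v ^ 2)⁻¹)
      = (2 / √Real.pi * Real.exp (-(l * κ))) * Real.exp (-(v - b / v) ^ 2) := by
    intro v hv
    have hv0 : (0 : ℝ) < v := hv
    have hpi : 0 < √Real.pi := Real.sqrt_pos.2 Real.pi_pos
    rw [smul_eq_mul, abs_neg, abs_of_pos (by positivity)]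
    simp only [hF]
    unfold gg
    have e1 : √(4 * Real.pi * (l ^ 2 / 4 * (v ^ 2)⁻¹)) = √Real.pi * (l / v) := by
      rw [show 4 * Real.pi * (l ^ 2 / 4 * (v ^ 2)⁻¹) = Real.pi * (l / v) ^ 2 by field_simp,
        Real.sqrt_mul Real.pi_pos.le, Real.sqrt_sq (by positivity)]
    have e2 : -(l ^ 2) / (4 * (l ^ 2 / 4 * (v ^ 2)⁻¹)) = -(v ^ 2) := by
      field_simp
    rw [e1, e2]
    have e3 : Real.exp (-(v - b / v) ^ 2) = Real.exp (-(κ ^ 2 * (l ^ 2 / 4 * (v ^ 2)⁻¹)))
        * Real.exp (-(v ^ 2)) * Real.exp (l * κ) := by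
      rw [← Real.exp_add, ← Real.exp_add]
      congr 1
      rw [hb]
      field_simp
      ring
    rw [e3, Real.exp_neg (l * κ)]
    have h4 := Real.exp_pos (l * κ)
    field_simp
    try ring
  have i1 := integrableOn_image_iff_integrableOn_abs_deriv_smul measurableSet_Ioi hd hinj F
  have s1 := integral_image_eq_integral_abs_deriv_smul measurableSet_Ioi hd hinj F
  rw [himg] at i1 s1
  have hG := Helper95_SOS.gfun_integrable hb0
  refine ⟨i1.2 ?_, ?_⟩
  · have h : IntegrableOn (fun v : ℝ => (2 / √Real.pi * Real.exp (-(l * κ))) *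
        Real.exp (-(v - b / v) ^ 2)) (Ioi 0) := hG.const_mul _
    exact h.congr_fun (fun v hv => (e v hv).symm) measurableSet_Ioi
  · rw [s1, setIntegral_congr_fun measurableSet_Ioi e, integral_const_mul,
      Helper95_SOS.glasser hb0]
    have hpi : √Real.pi ≠ 0 := (Real.sqrt_pos.2 Real.pi_pos).ne'
    field_simp

/-- long times -/
theorem tail_bd {F : ℝ → ℝ} (hF : Measurable F) {t0 C : ℝ} {p : ℕ} (ht0 : 0 < t0)
    (hC : 0 ≤ C) (hb : ∀ t, t0 ≤ t → |F t| ≤ C * (1 + t) ^ p) :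
    ∃ K : ℝ, 0 ≤ K ∧ ∀ κ : ℝ, 1 ≤ κ →
      IntegrableOn (fun t => Real.exp (-(κ ^ 2 * t)) * F t / t) (Ici t0) ∧
      |∫ t in Ici t0, Real.exp (-(κ ^ 2 * t)) * F t / t| ≤ K * Real.exp (-(κ ^ 2 * t0)) := by
  set M : ℝ := 2 ^ p * p.factorial * Real.exp (1 / 2) with hM
  have hM0 : 0 ≤ M := by positivity
  set D : ℝ → ℝ := fun t => Real.exp t0 / t0 * C * M * Real.exp (-(1 / 2) * t) with hD
  have hDi : IntegrableOn D (Ici t0) := by
    rw [integrableOn_Ici_iff_integrableOn_Ioi]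
    exact (exp_neg_integrableOn_Ioi t0 (by norm_num : (0 : ℝ) < 1 / 2)).const_mul _
  have hD0 : ∀ t, 0 ≤ D t := fun t => by simp only [hD]; positivity
  have hle : ∀ κ : ℝ, 1 ≤ κ → ∀ t ∈ Ici t0,
      ‖Real.exp (-(κ ^ 2 * t)) * F t / t‖ ≤ Real.exp (-(κ ^ 2 * t0)) * D t := by
    intro κ hκ t ht
    have ht' : t0 ≤ t := ht
    have htp : 0 < t := lt_of_lt_of_le ht0 ht'
    rw [Real.norm_eq_abs, abs_div, abs_mul, abs_of_pos (Real.exp_pos _), abs_of_pos htp]
    have h1 : Real.exp (-(κ ^ 2 * t)) ≤ Real.exp (-(κ ^ 2 * t0)) * (Real.exp t0 * Real.exp (-t)) := by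
      rw [← Real.exp_add, ← Real.exp_add]
      apply Real.exp_le_exp.2
      linarith only [mul_nonneg (sub_nonneg.2 ht') (by nlinarith : (0 : ℝ) ≤ κ ^ 2 - 1)]
    have h2 : (1 + t) ^ p ≤ M * Real.exp (1 / 2 * t) := by
      have h3 := Real.pow_div_factorial_le_exp ((1 + t) / 2) (by positivity) p
      rw [div_pow, div_div, div_le_iff₀ (by positivity)] at h3
      rw [hM]
      have h4 : Real.exp ((1 + t) / 2) = Real.exp (1 / 2) * Real.exp (1 / 2 * t) := by
        rw [← Real.exp_add]; congr 1; ring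
      rw [h4] at h3
      linarith only [h3]
    have h3 : |F t| ≤ C * (M * Real.exp (1 / 2 * t)) :=
      (hb t ht').trans (mul_le_mul_of_nonneg_left h2 hC)
    have h5 : Real.exp (-(κ ^ 2 * t)) * |F t| ≤ Real.exp (-(κ ^ 2 * t0))
        * (Real.exp t0 * Real.exp (-t)) * (C * (M * Real.exp (1 / 2 * t))) :=
      mul_le_mul h1 h3 (abs_nonneg _) (by positivity)
    have h6 : Real.exp (-t) * Real.exp (1 / 2 * t) = Real.exp (-(1 / 2) * t) := by
      rw [← Real.exp_add]; congr 1; ring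
    rw [div_le_iff₀ htp]
    calc Real.exp (-(κ ^ 2 * t)) * |F t| ≤ Real.exp (-(κ ^ 2 * t0))
        * (Real.exp t0 * Real.exp (-t)) * (C * (M * Real.exp (1 / 2 * t))) := h5
      _ = Real.exp (-(κ ^ 2 * t0)) * (Real.exp t0 * C * M) * (Real.exp (-t) * Real.exp (1 / 2 * t))
          := by ring
      _ = Real.exp (-(κ ^ 2 * t0)) * (Real.exp t0 / t0 * C * M * Real.exp (-(1 / 2) * t)) * t0 := by
          rw [h6]; field_simp
      _ ≤ Real.exp (-(κ ^ 2 * t0)) * (Real.exp t0 / t0 * C * M * Real.exp (-(1 / 2) * t)) * t := by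
          apply mul_le_mul_of_nonneg_left ht'
          positivity
      _ = _ := by simp only [hD]
  refine ⟨∫ t in Ici t0, D t, setIntegral_nonneg measurableSet_Ici fun t _ => hD0 t, fun κ hκ => ?_⟩
  have hm : Measurable fun t => Real.exp (-(κ ^ 2 * t)) * F t / t :=
    ((by fun_prop : Measurable fun t : ℝ => Real.exp (-(κ ^ 2 * t))).mul hF).div measurable_id
  have hi2 : IntegrableOn (fun t => Real.exp (-(κ ^ 2 * t0)) * D t) (Ici t0) := hDi.const_mul _
  have hi : IntegrableOn (fun t => Real.exp (-(κ ^ 2 * t)) * F t / t) (Ici t0) := by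
    refine Integrable.mono' hi2 hm.aestronglyMeasurable ?_
    exact (ae_restrict_iff' measurableSet_Ici).2 (Eventually.of_forall (hle κ hκ))
  refine ⟨hi, ?_⟩
  calc |∫ t in Ici t0, Real.exp (-(κ ^ 2 * t)) * F t / t|
      ≤ ∫ t in Ici t0, ‖Real.exp (-(κ ^ 2 * t)) * F t / t‖ := by
        rw [← Real.norm_eq_abs]; exact norm_integral_le_integral_norm _
    _ ≤ ∫ t in Ici t0, Real.exp (-(κ ^ 2 * t0)) * D t :=
        setIntegral_mono_on hi.norm hi2 measurableSet_Ici (hle κ hκ)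
    _ = _ := by rw [integral_const_mul, mul_comm]

theorem gg_le {t0 l t : ℝ} (ht0 : 0 < t0) (ht : t0 ≤ t) : gg t l ≤ 1 / √(4 * Real.pi * t0) := by
  unfold gg
  have h1 : Real.exp (-(l ^ 2) / (4 * t)) ≤ 1 := by
    rw [Real.exp_le_one_iff]
    have : 0 < t := lt_of_lt_of_le ht0 ht
    apply div_nonpos_of_nonpos_of_nonneg
    · linarith only [sq_nonneg l]
    · positivity
  have h2 : √(4 * Real.pi * t0) ≤ √(4 * Real.pi * t) := by
    apply Real.sqrt_le_sqrt
    have := Real.pi_pos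
    nlinarith only [ht, this]
  have h3 : 0 < √(4 * Real.pi * t0) := Real.sqrt_pos.2 (by have := Real.pi_pos; positivity)
  exact div_le_div₀ zero_le_one h1 h3 h2

theorem split_Ioi {f : ℝ → ℝ} {t0 : ℝ} (ht0 : 0 < t0) (h1 : IntegrableOn f (Ioo 0 t0))
    (h2 : IntegrableOn f (Ici t0)) :
    ∫ t in Ioi (0 : ℝ), f t = (∫ t in Ioo 0 t0, f t) + ∫ t in Ici t0, f t := by
  rw [← setIntegral_union _ measurableSet_Ici h1 h2]
  · congr 2
    ext t
    simp only [mem_Ioi, mem_union, mem_Ioo, mem_Ici]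
    constructor
    · intro h
      rcases lt_or_ge t t0 with h' | h'
      · exact Or.inl ⟨h, h'⟩
      · exact Or.inr h'
    · rintro (h | h)
      · exact h.1
      · linarith
  · rw [Set.disjoint_left]
    rintro t ⟨_, h1⟩ h2
    exact absurd h2 (not_le.2 h1)

theorem exp_div_le {d t : ℝ} (hd : 0 < d) (ht : 0 < t) : Real.exp (-(d / t)) / t ≤ 1 / d := by
  have h1 := Real.add_one_le_exp (d / t)
  have h2 : d / t ≤ Real.exp (d / t) := by linarith
  rw [Real.exp_neg, div_le_div_iff₀ ht hd, ← one_div, one_div_mul_eq_div, div_le_iff₀ (Real.exp_pos _)]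
  rw [div_le_iff₀ ht] at h2
  linarith

theorem decay {K c1 t0 L κ : ℝ} (hK : 0 ≤ K) (hc : 0 < c1) (ht0 : 0 < t0)
    (h1 : 1 ≤ κ) (h2 : (L + 1) / t0 ≤ κ) (h3 : 2 * K / c1 ≤ κ) :
    K * Real.exp (-(κ ^ 2 * t0)) ≤ c1 / 2 * Real.exp (-(L * κ)) := by
  have hκ : 0 < κ := by linarith
  rw [div_le_iff₀ ht0] at h2
  rw [div_le_iff₀ hc] at h3
  have e1 : Real.exp (-(κ ^ 2 * t0)) ≤ Real.exp (-(L * κ)) * Real.exp (-κ) := by
    rw [← Real.exp_add]
    apply Real.exp_le_exp.2
    nlinarith only [h2, h1]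
  have e2 : Real.exp (-κ) ≤ 1 / κ := by
    rw [Real.exp_neg, ← one_div]
    apply one_div_le_one_div_of_le hκ
    have := Real.add_one_le_exp κ
    linarith
  have e3 : K * Real.exp (-κ) ≤ c1 / 2 := by
    calc K * Real.exp (-κ) ≤ K * (1 / κ) := mul_le_mul_of_nonneg_left e2 hK
      _ ≤ c1 / 2 := by
        rw [mul_one_div, div_le_iff₀ hκ]
        linarith
  calc K * Real.exp (-(κ ^ 2 * t0)) ≤ K * (Real.exp (-(L * κ)) * Real.exp (-κ)) :=
        mul_le_mul_of_nonneg_left e1 hK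
    _ = K * Real.exp (-κ) * Real.exp (-(L * κ)) := by ring
    _ ≤ _ := mul_le_mul_of_nonneg_right e3 (Real.exp_pos _).le

theorem lpi1 {V : ℝ → ℝ} {l L C c t0 : ℝ} {p : ℕ} (hV : Measurable V) (hl : 0 < l) (hlL : l < L)
    (ht0 : 0 < t0) (hb : ∀ t : ℝ, 0 < t → 0 ≤ V t ∧ V t ≤ C * (1 + t) ^ p) (hc : 0 < c)
    (hu : ∀ t : ℝ, 0 < t → t < t0 →
        V t ≤ l * gg t l - c / t * Real.exp (-(L ^ 2 / (4 * t)))) :
      ∃ c' κ0 : ℝ, 0 < c' ∧ 0 < κ0 ∧ ∀ κ : ℝ, κ0 ≤ κ →
        c' * κ ^ (1 / 2 : ℝ) * Real.exp (-(L * κ)) ≤ Real.exp (-(l * κ)) - PhiT V κ := by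
  have hL : 0 < L := hl.trans hlL
  have hC : 0 ≤ C := by
    have := hb 1 one_pos
    have h2 : 0 ≤ C * (1 + 1) ^ p := this.1.trans this.2
    exact nonneg_of_mul_nonneg_left h2 (by positivity)
  obtain ⟨K, hK, hKb⟩ := tail_bd (p := p) hV ht0 hC (fun t ht => by
    have htp : 0 < t := lt_of_lt_of_le ht0 ht
    rw [abs_of_nonneg (hb t htp).1]
    exact (hb t htp).2)
  set c1 : ℝ := c * √(L / 2) / (L ^ 2 * Real.exp 1) with hc1
  have hc10 : 0 < c1 := by positivity
  refine ⟨c1 / 2, 1 + 2 / L + (L / t0 + 1) + (L + 1) / t0 + 2 * K / c1, by positivity,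
    by positivity, fun κ hκ => ?_⟩
  have p1 : 0 < 2 / L := by positivity
  have p2 : 0 < L / t0 := by positivity
  have p3 : 0 < (L + 1) / t0 := by positivity
  have p4 : 0 ≤ 2 * K / c1 := by positivity
  have k1 : 1 ≤ κ := by linarith
  have k2 : 2 / L ≤ κ := by linarith only [hκ, p2, p3, p4]
  have k3 : L / t0 < κ := by linarith only [hκ, p1, p3, p4]
  have k4 : (L + 1) / t0 ≤ κ := by linarith
  have k5 : 2 * K / c1 ≤ κ := by linarith
  have hκ0 : 0 < κ := by linarith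
  set f : ℝ → ℝ := fun t => Real.exp (-(κ ^ 2 * t)) * (l * gg t l) / t with hf
  set g : ℝ → ℝ := fun t => Real.exp (-(κ ^ 2 * t)) * V t / t with hg
  obtain ⟨fi, fv⟩ := lp_gg hκ0 hl
  have hfg : ∀ t, 0 < t → t < t0 → g t ≤ f t := by
    intro t h1 h2
    simp only [hf, hg]
    apply div_le_div_of_nonneg_right _ h1.le
    apply mul_le_mul_of_nonneg_left _ (Real.exp_pos _).le
    have := hu t h1 h2
    have h3 : 0 ≤ c / t * Real.exp (-(L ^ 2 / (4 * t))) := by positivity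
    linarith only [this, h3]
  have hg0 : ∀ t, 0 < t → 0 ≤ g t := by
    intro t h1
    simp only [hg]
    have := (hb t h1).1
    positivity
  have hf0 : ∀ t, 0 < t → 0 ≤ f t := by
    intro t h1
    simp only [hf]
    have := gg_nonneg t l
    positivity
  have hgm : Measurable g :=
    ((by fun_prop : Measurable fun t : ℝ => Real.exp (-(κ ^ 2 * t))).mul hV).div measurable_id
  have fi1 : IntegrableOn f (Ioo 0 t0) := fi.mono_set Ioo_subset_Ioi_self
  have fi2 : IntegrableOn f (Ici t0) := fi.mono_set fun t ht => lt_of_lt_of_le ht0 ht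
  have gi1 : IntegrableOn g (Ioo 0 t0) := by
    refine Integrable.mono' fi1 hgm.aestronglyMeasurable ?_
    refine (ae_restrict_iff' measurableSet_Ioo).2 (Eventually.of_forall fun t ht => ?_)
    rw [Real.norm_eq_abs, abs_of_nonneg (hg0 t ht.1)]
    exact hfg t ht.1 ht.2
  obtain ⟨gi2, gb⟩ := hKb κ k1
  have e1 : PhiT V κ = (∫ t in Ioo 0 t0, g t) + ∫ t in Ici t0, g t := split_Ioi ht0 gi1 gi2
  have e2 : Real.exp (-(l * κ)) = (∫ t in Ioo 0 t0, f t) + ∫ t in Ici t0, f t := by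
    rw [← fv]
    exact split_Ioi ht0 fi1 fi2
  have e3 : 0 ≤ ∫ t in Ici t0, f t :=
    setIntegral_nonneg measurableSet_Ici fun t ht => hf0 t (lt_of_lt_of_le ht0 ht)
  have e4 : ∫ t in Ici t0, g t ≤ K * Real.exp (-(κ ^ 2 * t0)) := (le_abs_self _).trans gb
  have e5 := decay hK hc10 ht0 k1 k4 k5
  -- the main part
  set ts : ℝ := L / (2 * κ) with hts
  have hts0 : 0 < ts := by positivity
  set w : ℝ := √ts / κ with hw
  have hw0 : 0 < w := div_pos (Real.sqrt_pos.2 hts0) hκ0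
  have hwts : w ≤ ts := by
    rw [hw, div_le_iff₀ hκ0]
    have h1 : 1 ≤ ts * κ ^ 2 := by
      rw [hts]
      rw [div_le_iff₀ hL] at k2
      have : L / (2 * κ) * κ ^ 2 = κ * L / 2 := by field_simp
      rw [this]
      linarith only [k2]
    have h2 : √ts * √ts = ts := Real.mul_self_sqrt hts0.le
    have h3 : 0 < √ts := Real.sqrt_pos.2 hts0
    have h4 : 1 ≤ √ts * κ := by
      by_contra hcon
      push Not at hcon
      have : (√ts * κ) ^ 2 < 1 := by
        have h5 : 0 ≤ √ts * κ := by positivity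
        nlinarith only [hcon, h5]
      rw [mul_pow, sq (√ts), h2] at this
      linarith
    nlinarith only [h2, h3, h4]
  have h2ts : 2 * ts < t0 := by
    rw [hts]
    rw [div_lt_iff₀ ht0] at k3
    have : 2 * (L / (2 * κ)) = L / κ := by field_simp
    rw [this, div_lt_iff₀ hκ0]
    linarith
  have hsub : Icc ts (ts + w) ⊆ Ioo 0 t0 := by
    intro t ht
    exact ⟨by linarith [ht.1], by linarith [ht.2]⟩
  set m0 : ℝ := c * (κ ^ 2 / L ^ 2) * Real.exp (-(L * κ) - 1) with hm0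
  have hlow : ∀ t ∈ Icc ts (ts + w), m0 ≤ f t - g t := by
    intro t ht
    have htp : 0 < t := lt_of_lt_of_le hts0 ht.1
    have ht1 : t < t0 := (hsub ht).2
    have h1 : c / t * Real.exp (-(L ^ 2 / (4 * t))) ≤ l * gg t l - V t := by
      have := hu t htp ht1
      linarith only [this]
    have h2 : f t - g t = Real.exp (-(κ ^ 2 * t)) * (l * gg t l - V t) / t := by
      simp only [hf, hg]; ring
    rw [h2]
    have h3 : κ ^ 2 * t + L ^ 2 / (4 * t) ≤ L * κ + 1 := by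
      have h4 : κ ^ 2 * t + L ^ 2 / (4 * t) = L * κ + (κ * t - L / 2) ^ 2 / t := by
        field_simp; ring
      rw [h4]
      have h5 : (κ * t - L / 2) ^ 2 ≤ t := by
        have h6 : κ * ts = L / 2 := by rw [hts]; field_simp
        have h7 : 0 ≤ κ * t - L / 2 := by
          have := mul_le_mul_of_nonneg_left ht.1 hκ0.le
          linarith only [h6, this]
        have h8 : κ * t - L / 2 ≤ √ts := by
          have h9 := mul_le_mul_of_nonneg_left ht.2 hκ0.le
          have h10 : κ * w = √ts := by rw [hw]; field_simp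
          rw [mul_add, h6, h10] at h9
          linarith only [h9]
        have h11 : √ts * √ts = ts := Real.mul_self_sqrt hts0.le
        have := ht.1
        nlinarith only [h11, this, h7, h8]
      have h12 : (κ * t - L / 2) ^ 2 / t ≤ 1 := by
        rw [div_le_one htp]; exact h5
      linarith only [h12]
    have h13 : t ≤ L / κ := by
      have : 2 * ts = L / κ := by rw [hts]; field_simp
      linarith only [hwts, this, ht.2]
    calc m0 = c * (κ ^ 2 / L ^ 2) * Real.exp (-(L * κ) - 1) := rfl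
      _ ≤ c * (1 / t ^ 2) * Real.exp (-(κ ^ 2 * t) - L ^ 2 / (4 * t)) := by
          have h14 : κ ^ 2 / L ^ 2 ≤ 1 / t ^ 2 := by
            rw [← div_pow, ← one_div_pow]
            apply pow_le_pow_left₀ (by positivity)
            rw [div_le_div_iff₀ hL htp, one_mul]
            rw [le_div_iff₀ hκ0] at h13
            linarith only [h13]
          have h15 : Real.exp (-(L * κ) - 1) ≤ Real.exp (-(κ ^ 2 * t) - L ^ 2 / (4 * t)) :=
            Real.exp_le_exp.2 (by linarith only [h3])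
          gcongr
      _ = Real.exp (-(κ ^ 2 * t)) * (c / t * Real.exp (-(L ^ 2 / (4 * t)))) / t := by
          rw [sub_eq_add_neg, Real.exp_add]
          field_simp
      _ ≤ _ := by
          apply div_le_div_of_nonneg_right _ htp.le
          exact mul_le_mul_of_nonneg_left h1 (Real.exp_pos _).le
  have hfgi : IntegrableOn (fun t => f t - g t) (Ioo 0 t0) := fi1.sub gi1
  have e6 : m0 * w ≤ ∫ t in Ioo 0 t0, (f t - g t) := by
    calc m0 * w = ∫ _ in Icc ts (ts + w), m0 := by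
          rw [setIntegral_const, smul_eq_mul, Measure.real, Real.volume_Icc, add_sub_cancel_left,
            ENNReal.toReal_ofReal hw0.le, mul_comm]
      _ ≤ ∫ t in Icc ts (ts + w), (f t - g t) := by
          refine setIntegral_mono_on ?_ (hfgi.mono_set hsub) measurableSet_Icc hlow
          exact integrableOn_const (by rw [Real.volume_Icc]; exact ENNReal.ofReal_ne_top)
      _ ≤ _ := by
          refine setIntegral_mono_set hfgi ?_ (HasSubset.Subset.eventuallyLE hsub)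
          refine (ae_restrict_iff' measurableSet_Ioo).2 (Eventually.of_forall fun t ht => ?_)
          have := hfg t ht.1 ht.2
          show 0 ≤ f t - g t
          linarith
  rw [integral_sub fi1 gi1] at e6
  have e7 : m0 * w = c1 * κ ^ (1 / 2 : ℝ) * Real.exp (-(L * κ)) := by
    rw [← Real.sqrt_eq_rpow, hm0, hw, hc1, hts]
    have h1 : √(L / (2 * κ)) = √(L / 2) / √κ := by
      rw [show L / (2 * κ) = L / 2 / κ by field_simp, Real.sqrt_div (by positivity)]
    have h2 : √κ * √κ = κ := Real.mul_self_sqrt hκ0.le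
    have h3 : 0 < √κ := Real.sqrt_pos.2 hκ0
    rw [h1, Real.exp_sub]
    field_simp
    rw [Real.sq_sqrt hκ0.le]
  rw [e7] at e6
  have e8 : 1 ≤ κ ^ (1 / 2 : ℝ) := Real.one_le_rpow k1 (by norm_num)
  have e9 : c1 / 2 * Real.exp (-(L * κ)) ≤ c1 / 2 * κ ^ (1 / 2 : ℝ) * Real.exp (-(L * κ)) := by
    have h1 : 0 < c1 / 2 * Real.exp (-(L * κ)) := by positivity
    nlinarith only [e8, h1]
  rw [e1, e2]
  linarith only [e3, e4, e5, e6, e9]

theorem lpi2 {V : ℝ → ℝ} {l L C t0 : ℝ} {p : ℕ} (hV : Measurable V) (hl : 0 < l) (hlL : l < L)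
    (ht0 : 0 < t0) (hb : ∀ t : ℝ, 0 < t → 0 ≤ V t ∧ V t ≤ C * (1 + t) ^ p)
    (hu : ∀ t : ℝ, 0 < t → t < t0 → |V t - l * gg t l| ≤ C * Real.exp (-(L ^ 2 / (4 * t)))) :
      ∀ L' : ℝ, L' < L → ∃ C' κ0 : ℝ, 0 < κ0 ∧ ∀ κ : ℝ, κ0 ≤ κ →
        |PhiT V κ - Real.exp (-(l * κ))| ≤ C' * Real.exp (-(L' * κ)) := by
  intro L' hL'
  have hL : 0 < L := hl.trans hlL
  have hC : 0 ≤ C := by
    have := hb 1 one_pos
    have h2 : 0 ≤ C * (1 + 1) ^ p := this.1.trans this.2
    exact nonneg_of_mul_nonneg_left h2 (by positivity)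
  obtain ⟨K, hK, hKb⟩ := tail_bd (p := p) hV ht0 hC (fun t ht => by
    have htp : 0 < t := lt_of_lt_of_le ht0 ht
    rw [abs_of_nonneg (hb t htp).1]
    exact (hb t htp).2)
  obtain ⟨K2, hK2, hKb2⟩ := tail_bd (F := fun t => l * gg t l) (p := 0)
    (C := l * (1 / √(4 * Real.pi * t0))) ((gg_meas l).const_mul l) ht0 (by positivity) (fun t ht => by
      rw [abs_of_nonneg (mul_nonneg hl.le (gg_nonneg t l)), pow_zero, mul_one]
      exact mul_le_mul_of_nonneg_left (gg_le ht0 ht) hl.le)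
  set L1 : ℝ := max L' (L / 2) with hL1
  have hL10 : 0 < L1 := lt_of_lt_of_le (by positivity) (le_max_right _ _)
  have hL1L : L1 < L := max_lt hL' (by linarith)
  set d : ℝ := (L ^ 2 - L1 ^ 2) / 4 with hd
  have hd0 : 0 < d := by rw [hd]; nlinarith only [hL1L, hL10]
  refine ⟨C * (t0 / d) + (K + K2), 1 + (L + 1) / t0, by positivity, fun κ hκ => ?_⟩
  have p3 : 0 < (L + 1) / t0 := by positivity
  have k1 : 1 ≤ κ := by linarith
  have k4 : (L + 1) / t0 ≤ κ := by linarith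
  have hκ0 : 0 < κ := by linarith
  set f : ℝ → ℝ := fun t => Real.exp (-(κ ^ 2 * t)) * (l * gg t l) / t with hf
  set g : ℝ → ℝ := fun t => Real.exp (-(κ ^ 2 * t)) * V t / t with hg
  obtain ⟨fi, fv⟩ := lp_gg hκ0 hl
  have hgm : Measurable g :=
    ((by fun_prop : Measurable fun t : ℝ => Real.exp (-(κ ^ 2 * t))).mul hV).div measurable_id
  have fi1 : IntegrableOn f (Ioo 0 t0) := fi.mono_set Ioo_subset_Ioi_self
  obtain ⟨fi2, fb⟩ := hKb2 κ k1
  have hdiff : ∀ t ∈ Ioo 0 t0, ‖g t - f t‖ ≤ C * (1 / d) * Real.exp (-(L1 * κ)) := by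
    intro t ht
    have htp : 0 < t := ht.1
    have h1 : g t - f t = Real.exp (-(κ ^ 2 * t)) * (V t - l * gg t l) / t := by
      simp only [hf, hg]; ring
    rw [h1, Real.norm_eq_abs, abs_div, abs_mul, abs_of_pos (Real.exp_pos _), abs_of_pos htp]
    have h2 := hu t htp ht.2
    have h3 : κ ^ 2 * t + L ^ 2 / (4 * t) = (κ ^ 2 * t + L1 ^ 2 / (4 * t)) + d / t := by
      rw [hd]; field_simp; ring
    have h4 : L1 * κ ≤ κ ^ 2 * t + L1 ^ 2 / (4 * t) := by
      have h5 : κ ^ 2 * t + L1 ^ 2 / (4 * t) = L1 * κ + (κ * t - L1 / 2) ^ 2 / t := by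
        field_simp; ring
      rw [h5]
      have : 0 ≤ (κ * t - L1 / 2) ^ 2 / t := by positivity
      linarith only [this]
    calc Real.exp (-(κ ^ 2 * t)) * |V t - l * gg t l| / t
        ≤ Real.exp (-(κ ^ 2 * t)) * (C * Real.exp (-(L ^ 2 / (4 * t)))) / t := by
          apply div_le_div_of_nonneg_right _ htp.le
          exact mul_le_mul_of_nonneg_left h2 (Real.exp_pos _).le
      _ = C * Real.exp (-(κ ^ 2 * t + L1 ^ 2 / (4 * t))) * (Real.exp (-(d / t)) / t) := by
          have : Real.exp (-(κ ^ 2 * t)) * Real.exp (-(L ^ 2 / (4 * t)))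
              = Real.exp (-(κ ^ 2 * t + L1 ^ 2 / (4 * t))) * Real.exp (-(d / t)) := by
            rw [← Real.exp_add, ← Real.exp_add]
            congr 1
            linarith only [h3]
          rw [show Real.exp (-(κ ^ 2 * t)) * (C * Real.exp (-(L ^ 2 / (4 * t)))) / t
            = C * (Real.exp (-(κ ^ 2 * t)) * Real.exp (-(L ^ 2 / (4 * t)))) / t by ring, this]
          ring
      _ ≤ C * Real.exp (-(L1 * κ)) * (1 / d) := by
          apply mul_le_mul _ (exp_div_le hd0 htp) (by positivity) (by positivity)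
          exact mul_le_mul_of_nonneg_left (Real.exp_le_exp.2 (by linarith)) hC
      _ = _ := by ring
  have hfin : volume (Ioo 0 t0) ≠ ⊤ := by rw [Real.volume_Ioo]; exact ENNReal.ofReal_ne_top
  have hdi : IntegrableOn (fun t => g t - f t) (Ioo 0 t0) := by
    have hfm : Measurable f :=
      ((by fun_prop : Measurable fun t : ℝ => Real.exp (-(κ ^ 2 * t))).mul
        ((gg_meas l).const_mul l)).div measurable_id
    refine Integrable.mono' (g := fun _ => C * (1 / d) * Real.exp (-(L1 * κ)))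
      (integrableOn_const hfin) (hgm.sub hfm).aestronglyMeasurable ?_
    exact (ae_restrict_iff' measurableSet_Ioo).2 (Eventually.of_forall hdiff)
  have gi1 : IntegrableOn g (Ioo 0 t0) := by
    have := hdi.add fi1
    refine this.congr_fun (fun t _ => ?_) measurableSet_Ioo
    simp
  obtain ⟨gi2, gb⟩ := hKb κ k1
  have e1 : PhiT V κ = (∫ t in Ioo 0 t0, g t) + ∫ t in Ici t0, g t := split_Ioi ht0 gi1 gi2
  have e2 : Real.exp (-(l * κ)) = (∫ t in Ioo 0 t0, f t) + ∫ t in Ici t0, f t := by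
    rw [← fv]
    exact split_Ioi ht0 fi1 fi2
  have e3 : |(∫ t in Ioo 0 t0, g t) - ∫ t in Ioo 0 t0, f t|
      ≤ C * (t0 / d) * Real.exp (-(L1 * κ)) := by
    rw [← integral_sub gi1 fi1, ← Real.norm_eq_abs]
    calc ‖∫ t in Ioo 0 t0, (g t - f t)‖
        ≤ C * (1 / d) * Real.exp (-(L1 * κ)) * (volume (Ioo 0 t0)).toReal := by
          refine norm_setIntegral_le_of_norm_le_const hfin.lt_top hdiff
      _ = _ := by
          rw [Real.volume_Ioo, sub_zero, ENNReal.toReal_ofReal ht0.le]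
          ring
  have e4 : Real.exp (-(κ ^ 2 * t0)) ≤ Real.exp (-(L1 * κ)) := by
    apply Real.exp_le_exp.2
    rw [div_le_iff₀ ht0] at k4
    nlinarith only [hL1L, hκ, p3, k4]
  have e5 : Real.exp (-(L1 * κ)) ≤ Real.exp (-(L' * κ)) := by
    apply Real.exp_le_exp.2
    have : L' ≤ L1 := le_max_left _ _
    nlinarith only [this, hκ, p3]
  have e6 : |∫ t in Ici t0, g t| ≤ K * Real.exp (-(L1 * κ)) :=
    gb.trans (mul_le_mul_of_nonneg_left e4 hK)
  have e7 : |∫ t in Ici t0, f t| ≤ K2 * Real.exp (-(L1 * κ)) :=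
    fb.trans (mul_le_mul_of_nonneg_left e4 hK2)
  rw [e1, e2]
  have e8 : |((∫ t in Ioo 0 t0, g t) + ∫ t in Ici t0, g t)
      - ((∫ t in Ioo 0 t0, f t) + ∫ t in Ici t0, f t)|
      ≤ (C * (t0 / d) + (K + K2)) * Real.exp (-(L1 * κ)) := by
    rw [abs_le] at e3 e6 e7 ⊢
    constructor
    · linarith only [e3.1, e6.1, e7.2]
    · linarith only [e3.2, e6.2, e7.1]
  refine e8.trans (mul_le_mul_of_nonneg_left e5 ?_)
  positivity

end Pool.Agent.XQ.GI.H69

namespace Pool.Agent.XQ.GI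

theorem lpi : LpiStatement := by
  intro V l L C c t0 p hV hl hlL ht0 hb
  exact ⟨fun hc hu => H69.lpi1 hV hl hlL ht0 hb hc hu,
    fun hu => H69.lpi2 hV hl hlL ht0 hb hu⟩

end Pool.Agent.XQ.GI
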