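import Pool.Agent.Helper35_XQ.Stmt
import Pool.Agent.Helper60_AEU.Gb2

/-!
Squad XQ (MP_5b0138_an), Part A2, module RED (helper69): reduction to the standard position.
-/

set_option autoImplicit false

namespace Pool.Agent.XQ.GI.H69

open MeasureTheory Complex Filter Topology Pool.Agent.H62T Pool.Agent.H60K Pool.Agent.H16Iso
  Pool.Agent.H16F Pool.Agent.H38KL
open scoped ENNReal NNReal

/-- a triple of side lines in general position -/
theorem lap_gen (hVEX : VexStatement) {u : Fin 3 → ℂ} {h : Fin 3 → ℝ} {u1 u2 u3 : ℂ} {D0 : ℝ}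
    (e0 : u 0 = u1) (e1 : u 1 = u2) (e2 : u 2 = u3) (h1 : ‖u1‖ = 1) (h2 : ‖u2‖ = 1)
    (h3 : ‖u3‖ = 1) (h12 : 0 < dt u1 u2) (h23 : 0 < dt u2 u3) (h31 : 0 < dt u3 u1)
    (hD : D0 = dt u2 u3 * h 0 + dt u3 u1 * h 1 + dt u1 u2 * h 2) (κ : ℝ) :
    AEU.Lap (AEU.EZ u1 u2 u3 D0) κ = -PhiT (VM u h Finset.univ ∅) κ := by
  rw [← neg_one_mul]
  have hpr : 0 < AEU.pr u1 u2 u3 := by
    unfold AEU.pr
    positivity
  refine lap_eq hVEX (fun s => ?_) (Finset.disjoint_empty_right _) (by norm_num) (fun k => ?_)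
    (fun t ht ω => ?_) κ
  · fin_cases s
    · show ‖u 0‖ = 1
      rw [e0, h1]
    · show ‖u 1‖ = 1
      rw [e1, h2]
    · show ‖u 2‖ = 1
      rw [e2, h3]
  · unfold AEU.ZZ
    rw [neg_div, neg_mul_neg, one_mul]
    positivity
  · have hset : {x : ℂ | (∀ s ∈ (Finset.univ : Finset (Fin 3)), h s
          < ip (u s) x + Real.sqrt t * hs ω (u s)) ∧
        ∀ s ∈ (∅ : Finset (Fin 3)), ip (u s) x + Real.sqrt t * hs ω (u s) < h s}
        = {x : ℂ | h 0 - Real.sqrt t * hs ω u1 < ip u1 x ∧ h 1 - Real.sqrt t * hs ω u2 < ip u2 x ∧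
          h 2 - Real.sqrt t * hs ω u3 < ip u3 x} := by
      ext x
      simp only [Set.mem_ofPred_eq, Finset.mem_univ, forall_true_left, Fin.forall_fin_succ,
        Finset.notMem_empty, false_imp_iff, forall_true_iff, and_true, Fin.succ_zero_eq_one,
        Fin.succ_one_eq_two, e0, e1, e2, IsEmpty.forall_iff]
      constructor
      · rintro ⟨b0, b1, b2⟩
        exact ⟨by linarith, by linarith, by linarith⟩
      · rintro ⟨b1, b2, b0⟩
        exact ⟨by linarith, by linarith, by linarith⟩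
    rw [hset, vol_corner (p := dt u2 u3 / dt u1 u2) (q := dt u3 u1 / dt u1 u2) (by positivity)
      (by positivity) h1 h2 h3 (fun x => by
        have := dep3 u1 u2 u3 x
        field_simp
        linarith) h12.ne']
    congr 1
    have k1 : -(dt u2 u3 / dt u1 u2 * (h 0 - Real.sqrt t * hs ω u1)
        + dt u3 u1 / dt u1 u2 * (h 1 - Real.sqrt t * hs ω u2) + (h 2 - Real.sqrt t * hs ω u3))
        = -(D0 - AEU.DD u1 u2 u3 (fun v => Real.sqrt t * hs ω v)) / dt u1 u2 := by
      unfold AEU.DD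
      rw [hD]
      field_simp
      ring
    rw [k1]
    unfold AEU.ZZ AEU.pr
    set X := D0 - AEU.DD u1 u2 u3 (fun v => Real.sqrt t * hs ω v) with hX
    rw [max_neg_div h12, abs_of_pos h12]
    field_simp

/-- rotations -/
theorem phi_rot (hINV : InvStatement) (L : ℂ ≃ₗᵢ[ℝ] ℂ) (u : Fin 3 → ℂ) (h : Fin 3 → ℝ)
    (M E : Finset (Fin 3)) (κ : ℝ) :
    PhiT (VM (fun s => L (u s)) h M E) κ = PhiT (VM u h M E) κ := by
  unfold PhiT
  refine setIntegral_congr_fun measurableSet_Ioi fun t ht => ?_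
  have h1 := hINV.2.1 u h M E L 0 t ht
  have h2 : (fun s => h s + ip (L (u s)) 0) = h := by
    funext s
    simp [ip]
  rw [h2] at h1
  simp only [h1]

theorem nsq1 {u : ℂ} (hu : ‖u‖ = 1) : u.re * u.re + u.im * u.im = 1 := by
  have h := Complex.sq_norm u
  rw [hu, Complex.normSq_apply] at h
  linarith

/-- Lagrange's identity -/
theorem lag {u v : ℂ} (hu : ‖u‖ = 1) (hv : ‖v‖ = 1) : ip u v ^ 2 + dt u v ^ 2 = 1 := by
  have h1 := nsq1 hu
  have h2 := nsq1 hv
  have h3 : ip u v ^ 2 + dt u v ^ 2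
      = (u.re * u.re + u.im * u.im) * (v.re * v.re + v.im * v.im) := by
    unfold ip dt
    ring
  rw [h3, h1, h2, one_mul]

end Pool.Agent.XQ.GI.H69

namespace Pool.Agent.XQ.GI

open MeasureTheory Complex Filter Topology Pool.Agent.H62T Pool.Agent.H60K Pool.Agent.H16Iso

theorem red (hINV : InvStatement) (hVEX : VexStatement) : RedStatement := by
  intro u₁ u₂ u₃ D₀ n1 n2 n3 h12 h23 h31 i12 i23 i31 hD0 heq hle
  set c : ℝ := -ip u₁ u₂ with hc
  set s : ℝ := dt u₁ u₂ with hs
  have hc0 : 0 < c := by rw [hc]; linarith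
  have hcs : c ^ 2 + s ^ 2 = 1 := by
    have := H69.lag n1 n2
    rw [hc, hs]
    linarith [this]
  have hc1 : c < 1 := by nlinarith only [hcs, h12]
  have hip2 : ip u₂ u₃ = -c := by
    have h := H69.lag n2 n3
    rw [← heq] at h
    have h2 : ip u₂ u₃ ^ 2 = c ^ 2 := by linarith
    have h3 : (ip u₂ u₃ - c) * (ip u₂ u₃ + c) = 0 := by ring_nf; linarith
    rcases mul_eq_zero.1 h3 with h4 | h4
    · linarith
    · linarith
  set α : ℝ := Real.arccos c with hα
  have hcos : Real.cos α = c := Real.cos_arccos (by linarith) hc1.le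
  have hα2 : α < Real.pi / 2 := Real.arccos_lt_pi_div_two.2 hc0
  have hα0 : 0 < α := Real.arccos_pos.2 hc1
  have hsin : Real.sin α = s := by
    have h1 : Real.sin α ^ 2 = s ^ 2 := by
      have := Real.sin_sq_add_cos_sq α
      rw [hcos] at this
      linarith
    have h2 : 0 < Real.sin α := Real.sin_pos_of_pos_of_lt_pi hα0 (by linarith [Real.pi_pos])
    exact (pow_left_inj₀ h2.le h12.le two_ne_zero).1 h1
  have q1 := H69.nsq1 n1
  have q2 := H69.nsq1 n2
  have q3 := H69.nsq1 n3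
  -- the three normals in terms of `u₂`
  have a1 : u₁.re = -c * u₂.re + s * u₂.im := by
    rw [hc, hs]
    unfold ip dt
    linear_combination (-u₁.re) * q2
  have a2 : u₁.im = -c * u₂.im - s * u₂.re := by
    rw [hc, hs]
    unfold ip dt
    linear_combination (-u₁.im) * q2
  have a3 : u₃.re = -c * u₂.re - s * u₂.im := by
    rw [← hip2, heq]
    unfold ip dt
    linear_combination (-u₃.re) * q2
  have a4 : u₃.im = -c * u₂.im + s * u₂.re := by
    rw [← hip2, heq]
    unfold ip dt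
    linear_combination (-u₃.im) * q2
  have hdt : dt u₃ u₁ = 2 * s * c := by
    unfold dt
    rw [a1, a2, a3, a4]
    linear_combination (2 * s * c) * q2
  have hc2 : c ≤ 1 / 2 := by
    rw [hdt] at hle
    nlinarith only [heq, hle, h23]
  have hα3 : Real.pi / 3 ≤ α := by
    by_contra hcon
    push Not at hcon
    have := Real.cos_lt_cos_of_nonneg_of_le_pi hα0.le (by linarith [Real.pi_pos]) hcon
    rw [Real.cos_pi_div_three, hcos] at this
    linarith
  have hs0 : s ≠ 0 := h12.ne'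
  refine ⟨α, D₀ / s ^ 2, hα3, hα2, by positivity, fun hlt => ?_, ?_, ?_, fun κ => ?_⟩
  · have hc3 : c < 1 / 2 := by
      rw [hdt] at hlt
      nlinarith only [heq, hlt, h23]
    rcases lt_or_eq_of_le hα3 with h | h
    · exact h
    · exfalso
      rw [← h, Real.cos_pi_div_three] at hcos
      linarith only [hcos, hc3]
  · unfold lo
    rw [hsin]
    field_simp
  · unfold La
    rw [hsin]
    field_simp
  · -- the rotation
    have hw : ‖I * u₂‖ = 1 := by rw [norm_mul, Complex.norm_I, one_mul, n2]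
    set w : Circle := ⟨I * u₂, mem_sphere_zero_iff_norm.2 hw⟩ with hwdef
    set L : ℂ ≃ₗᵢ[ℝ] ℂ := rotation w with hL
    have hLx : ∀ x, L x = I * u₂ * x := by
      intro x
      rw [hL, rotation_apply]
    have g0 : L (uI α 0) = u₁ := by
      rw [hLx]
      have : uI α 0 = ⟨-Real.sin α, Real.cos α⟩ := by simp [uI]
      rw [this]
      apply Complex.ext
      · simp [hsin, hcos]
        rw [a1]; ring
      · simp [hsin, hcos]
        rw [a2]; ring
    have g1 : L (uI α 1) = u₂ := by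
      rw [hLx]
      have : uI α 1 = ⟨0, -1⟩ := by simp [uI]
      rw [this]
      apply Complex.ext
      · simp
      · simp
    have g2 : L (uI α 2) = u₃ := by
      rw [hLx]
      have : uI α 2 = ⟨Real.sin α, Real.cos α⟩ := by simp [uI]
      rw [this]
      apply Complex.ext
      · simp [hsin, hcos]
        rw [a3]; ring
      · simp [hsin, hcos]
        rw [a4]; ring
    rw [← H69.phi_rot hINV L]
    refine H69.lap_gen hVEX g0 g1 g2 n1 n2 n3 h12 h23 h31 ?_ κ
    have k0 : hI α (D₀ / s ^ 2) 0 = D₀ / s ^ 2 / 2 * Real.sin α := by simp [hI]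
    have k1 : hI α (D₀ / s ^ 2) 1 = 0 := by simp [hI]
    have k2 : hI α (D₀ / s ^ 2) 2 = D₀ / s ^ 2 / 2 * Real.sin α := by simp [hI]
    rw [k0, k1, k2, hsin, ← heq, mul_zero, add_zero]
    field_simp
    ring

end Pool.Agent.XQ.GI
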