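import Pool.Agent.Helper35_XQ.StmtAH

/-!
XQ part AH, module MBD (helper69): measurability and bounds.
-/

set_option autoImplicit false

namespace Pool.Agent.XQ.AH.H69

open MeasureTheory Complex Filter Topology Pool.Agent.H62T Pool.Agent.H60K Pool.Agent.H38KL
  Pool.Agent.H16F
open scoped ENNReal NNReal

lemma meas_pB (u : Fin 3 → ℂ) (h : Fin 3 → ℝ) (B : Finset (Fin 3)) :
    Measurable (fun p : ℝ × ℂ × ℂ => pB u h B p.1 p.2.1 p.2.2) := by
  unfold pB
  exact H8.pD_meas (H44.dm_open u h _)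

lemma meas_kME (u : Fin 3 → ℂ) (h : Fin 3 → ℝ) (M E : Finset (Fin 3)) :
    Measurable (fun p : ℝ × ℂ × ℂ => kME u h M E p.1 p.2.1 p.2.2) := by
  unfold kME
  refine Finset.measurable_fun_sum _ fun B _ => ?_
  exact (meas_pB u h (E ∪ B)).const_mul _

lemma meas_kME_comp (u : Fin 3 → ℂ) (h : Fin 3 → ℝ) (M E : Finset (Fin 3)) {X : Type*}
    [MeasurableSpace X] {f : X → ℝ} {g k : X → ℂ} (hf : Measurable f) (hg : Measurable g)
    (hk : Measurable k) : Measurable (fun a => kME u h M E (f a) (g a) (k a)) := by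
  have h3 := (meas_kME u h M E).comp (hf.prodMk (hg.prodMk hk))
  simpa only [Function.comp_def] using h3

lemma meas_VM (u : Fin 3 → ℂ) (h : Fin 3 → ℝ) (M E : Finset (Fin 3)) :
    Measurable (VM u h M E) := by
  have h1 : Measurable (fun p : ℝ × ℂ => kME u h M E p.1 p.2 p.2) :=
    meas_kME_comp u h M E measurable_fst measurable_snd measurable_snd
  exact (h1.stronglyMeasurable.integral_prod_right').measurable

lemma G_conj (a : ℝ) (z : ℂ) : G a ((starRingEnd ℂ) z) = G a z := by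
  unfold G
  rw [Complex.norm_conj]

lemma G_sub_conj (a : ℝ) (x y : ℂ) :
    G a (x - (starRingEnd ℂ) y) = G a ((starRingEnd ℂ) x - y) := by
  rw [← G_conj a (x - (starRingEnd ℂ) y), map_sub, Complex.conj_conj]

lemma meas_TT0 (α d ξ1 δ ζ : ℝ) :
    Measurable (fun p : ℝ × ℝ => TT0 α d ξ1 δ ζ p.1 p.2) := by
  have h1 : Measurable (fun q : ((ℝ × ℝ) × ℂ) × ℂ =>
      (G q.1.1.1 (q.1.2 - q.2) - G q.1.1.1 (q.1.2 - (starRingEnd ℂ) q.2))
      * (ch ξ1 q.2 - ch ξ1 q.1.2) *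
      kME (us α 0) (hh d) {1} {2} (q.1.1.2 - q.1.1.1) (rf (us α 0) (hh d) 0 q.2) q.1.2) := by
    have f0 : Measurable (fun q : ((ℝ × ℝ) × ℂ) × ℂ => (starRingEnd ℂ) q.2) :=
      Complex.continuous_conj.measurable.comp measurable_snd
    have f1 : Measurable (fun q : ((ℝ × ℝ) × ℂ) × ℂ => G q.1.1.1 (q.1.2 - q.2)) :=
      measurable_G_comp (by fun_prop) (by fun_prop)
    have f1' : Measurable (fun q : ((ℝ × ℝ) × ℂ) × ℂ =>
        G q.1.1.1 (q.1.2 - (starRingEnd ℂ) q.2)) :=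
      measurable_G_comp (by fun_prop) ((by fun_prop : Measurable
        (fun q : ((ℝ × ℝ) × ℂ) × ℂ => q.1.2)).sub f0)
    have f2 : Measurable (fun q : ((ℝ × ℝ) × ℂ) × ℂ => ch ξ1 q.2 - ch ξ1 q.1.2) :=
      (measurable_ch_comp ξ1 (by fun_prop)).sub (measurable_ch_comp ξ1 (by fun_prop))
    refine ((f1.sub f1').mul f2).mul ?_
    exact meas_kME_comp _ _ _ _ (by fun_prop)
      (measurable_rf_comp _ _ _ (by fun_prop)) (by fun_prop)
  have h4 := (h1.stronglyMeasurable.integral_prod_right'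
    (ν := volume.restrict (Rw ξ1 δ ζ 0)))
  exact (h4.integral_prod_right' (ν := volume.restrict (Rw ξ1 δ ζ 0))).measurable

/-- bound of the flux -/
lemma TT0_bound {α d δ ζ : ℝ} (hLAB : LabStatement) (hδ : 0 < δ) :
    ∃ C : ℝ, 0 ≤ C ∧ ∀ a t : ℝ, 0 < a → a < t →
      |TT0 α d (d - 2 * δ) δ ζ a t|
        ≤ C * (Real.exp (-(δ ^ 2 / (t - a))) / (t - a)) := by
  have hOE : Disjoint ({1} : Finset (Fin 3)) {2} := by decide
  set v : ℝ := (volume (Rw (d - 2 * δ) δ ζ 0)).toReal with hv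
  refine ⟨2 * (8 / (4 * Real.pi)) * v, by positivity, fun a t ha hat => ?_⟩
  have hs : 0 < t - a := by linarith
  have hu := norm_us α 0
  set B : ℝ := 8 / (4 * Real.pi) * (Real.exp (-(δ ^ 2 / (t - a))) / (t - a)) with hB
  have hB0 : 0 ≤ B := by positivity
  have h1 : ∀ x ∈ Rw (d - 2 * δ) δ ζ 0, ∀ y ∈ Rw (d - 2 * δ) δ ζ 0,
      |(G a (x - y) - G a (x - (starRingEnd ℂ) y)) * (ch (d - 2 * δ) y - ch (d - 2 * δ) x)
        * kME (us α 0) (hh d) {1} {2} (t - a) (rf (us α 0) (hh d) 0 y) x|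
        ≤ (G a (x - y) + G a ((starRingEnd ℂ) x - y)) * B := by
    intro x hx y hy
    have h2 := kME_le hLAB (h := hh d) hu hOE hs (rf (us α 0) (hh d) 0 y) x
    have h3 := kME_nonneg hLAB (h := hh d) hu hOE hs (rf (us α 0) (hh d) 0 y) x
    have h4 := G_le_of_dist hs (by positivity : 0 ≤ 2 * δ) (window_dist (η1 := α) (η2 := 0) hx hy)
    have h5 : 0 ≤ G a (x - y) := (H8.G_pos ha _).le
    have h5' : 0 ≤ G a ((starRingEnd ℂ) x - y) := (H8.G_pos ha _).le
    rw [abs_mul, abs_mul, abs_of_nonneg h3, G_sub_conj]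
    have h6 : (2 * δ) ^ 2 / (4 * (t - a)) = δ ^ 2 / (t - a) := by field_simp; ring
    rw [h6] at h4
    have h7 : 8 * (Real.exp (-(δ ^ 2 / (t - a))) / (4 * Real.pi * (t - a))) = B := by
      rw [hB]; field_simp
    have h8 : |G a (x - y) - G a ((starRingEnd ℂ) x - y)|
        ≤ G a (x - y) + G a ((starRingEnd ℂ) x - y) := by
      rw [abs_le]
      constructor <;> linarith
    calc |G a (x - y) - G a ((starRingEnd ℂ) x - y)| * |ch (d - 2 * δ) y - ch (d - 2 * δ) x|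
          * kME (us α 0) (hh d) {1} {2} (t - a) (rf (us α 0) (hh d) 0 y) x
        ≤ (G a (x - y) + G a ((starRingEnd ℂ) x - y)) * 1
            * (8 * G (t - a) (rf (us α 0) (hh d) 0 y - x)) := by
          gcongr
          exact abs_ch_sub _ _ _
      _ ≤ (G a (x - y) + G a ((starRingEnd ℂ) x - y)) * 1
            * (8 * (Real.exp (-(δ ^ 2 / (t - a))) / (4 * Real.pi * (t - a)))) := by
          gcongr
      _ = (G a (x - y) + G a ((starRingEnd ℂ) x - y)) * B := by rw [h7]; ring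
  have h8 : ∀ x ∈ Rw (d - 2 * δ) δ ζ 0,
      ‖∫ y in Rw (d - 2 * δ) δ ζ 0, (G a (x - y) - G a (x - (starRingEnd ℂ) y))
        * (ch (d - 2 * δ) y - ch (d - 2 * δ) x)
        * kME (us α 0) (hh d) {1} {2} (t - a) (rf (us α 0) (hh d) 0 y) x‖ ≤ 2 * B := by
    intro x hx
    have i1 : Integrable (fun y => G a (x - y)) := (H8.G_integrable ha).comp_sub_left x
    have i2 : Integrable (fun y => G a ((starRingEnd ℂ) x - y)) :=
      (H8.G_integrable ha).comp_sub_left _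
    have h9 : Integrable (fun y => (G a (x - y) + G a ((starRingEnd ℂ) x - y)) * B) :=
      (i1.add i2).mul_const B
    refine (norm_integral_le_of_norm_le h9.integrableOn ?_).trans ?_
    · filter_upwards [ae_restrict_mem (measurableSet_Rw (d - 2 * δ) δ ζ 0)] with y hy
      exact h1 x hx y hy
    · have h10 : ∫ y in Rw (d - 2 * δ) δ ζ 0, (G a (x - y) + G a ((starRingEnd ℂ) x - y)) * B
          ≤ ∫ y, (G a (x - y) + G a ((starRingEnd ℂ) x - y)) * B := by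
        refine setIntegral_le_integral h9 ?_
        exact Eventually.of_forall fun y =>
          mul_nonneg (add_nonneg (H8.G_pos ha _).le (H8.G_pos ha _).le) hB0
      refine h10.trans ?_
      rw [integral_mul_const, integral_add i1 i2,
        integral_sub_left_eq_self (fun z => G a z) volume x,
        integral_sub_left_eq_self (fun z => G a z) volume ((starRingEnd ℂ) x),
        H8.G_integral ha]
      linarith
  rw [← Real.norm_eq_abs]
  unfold TT0
  refine (norm_setIntegral_le_of_norm_le_const (vol_Rw _ _ _ _) h8).trans (le_of_eq ?_)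
  rw [hB]
  simp only [Measure.real, hv]
  ring

/-- bound of the total mass -/
lemma V0_bound (hLAB : LabStatement) (hBLV : BlvStatement) (hLDM : LdmStatement)
    {α d R : ℝ} (hR : 0 < R)
    (loc : ∀ (n : ℕ) [NeZero n] (x : Fin n → ℂ) (A : Fin n → Finset (Fin 3)),
      Vis {0, 1} {2} A → Cns (us α 0) (hh d) x A →
        ‖x 0‖ ≤ R * (1 + Ln (us α 0) (hh d) x A) ∧ 1 / R ≤ Ln (us α 0) (hh d) x A) :
    ∃ (C : ℝ) (p : ℕ), 0 ≤ C ∧ ∀ t : ℝ, 0 < t →
      |VM (us α 0) (hh d) {0, 1} {2} t|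
        ≤ Q C p ((1 - 1 / 2) * (1 / R) ^ 2) t := by
  have hu := norm_us α 0
  set l1 : ℝ := 1 / R with hl1
  have hl10 : 0 < l1 := by positivity
  have hdis : Disjoint ({0, 1} : Finset (Fin 3)) {2} := by decide
  obtain ⟨K0, hK0⟩ := exists_nat_ge (l1 ^ 2 / (1 : ℝ) ^ 2)
  set K : ℕ := K0 + 1 with hK
  have hKl : l1 ^ 2 ≤ (1 : ℝ) ^ 2 * K := by
    rw [div_le_iff₀ (by positivity)] at hK0
    rw [hK]
    push_cast
    linarith only [hK0]
  have hKR : (0 : ℝ) < K := by positivity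
  have : NeZero K := ⟨by omega⟩
  obtain ⟨C, p, h1⟩ := (hLDM (us α 0) (hh d) hu K (fun _ A => Vis {0, 1} {2} A) 1
      l1 R (1 / 2) (fun A => MeasurableSet.const _) one_pos hl10 hR (by norm_num)).1
      (fun x A hS hC _ => (loc K x A hS hC).2)
      (fun x A hS hC => (loc K x A hS hC).1)
  refine ⟨max C 0, p, le_max_right _ _, fun t ht => ?_⟩
  have hsum : ∑ _j : Fin K, t / K = t := by
    simp only [Finset.sum_const, Finset.card_univ, Fintype.card_fin, nsmul_eq_mul]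
    field_simp
  have h2 := h1 (fun _ => t / K) (fun _ => by positivity) (fun _ => by
    rw [hsum, div_mul_eq_mul_div, div_le_iff₀ hKR]
    calc t * l1 ^ 2 ≤ t * ((1 : ℝ) ^ 2 * K) := by gcongr
      _ = (1 : ℝ) ^ 2 * t * K := by ring)
  rw [hsum] at h2
  have h3 := hBLV (us α 0) (hh d) hu K (fun _ => t / K) (fun _ => by positivity)
    {0, 1} {2} hdis
  rw [hsum] at h3
  have h4 : |VM (us α 0) (hh d) {0, 1} {2} t| ≤
      (∫⁻ x, ENNReal.ofReal (kME (us α 0) (hh d) {0, 1} {2} t x x)).toReal := by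
    unfold VM
    rw [← Real.norm_eq_abs]
    refine (norm_integral_le_lintegral_norm _).trans (le_of_eq ?_)
    congr 1
    refine lintegral_congr fun x => ?_
    rw [Real.norm_eq_abs, abs_of_nonneg (kME_nonneg hLAB hu hdis ht x x)]
  refine h4.trans ?_
  rw [h3]
  refine ENNReal.toReal_le_of_le_ofReal (Q_nonneg ht (le_max_right _ _)) (h2.trans ?_)
  refine ENNReal.ofReal_le_ofReal ?_
  exact Q_le (m := (1 - 1 / 2) * l1 ^ 2) ht (le_max_left _ _) (le_max_right _ _) le_rfl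

/-- module MBD -/
theorem mbd (hLOC : AH.LocStatement) : AH.MbdStatement := by
  intro α d δ ρ hα1 hα2 hd hδ hρ
  refine ⟨meas_VM _ _ _ _, meas_TT0 α d (d - 2 * δ) δ ρ, ?_⟩
  obtain ⟨R, hR, loc⟩ := hLOC α d hα1 hα2 hd
  obtain ⟨CV, pV, hCV, hV⟩ := V0_bound lab_all H44.blv (ldm lab_all AEU.H7.ldb) hR loc
  obtain ⟨CT, hCT, hT⟩ := TT0_bound (α := α) (d := d) (ζ := ρ) lab_all hδ
  set l1 : ℝ := 1 / R with hl1
  have hl10 : 0 < l1 := by positivity
  set l0 : ℝ := min δ (l1 / 2) with hl0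
  have hl00 : 0 < l0 := by positivity
  have hl0δ : l0 ^ 2 ≤ δ ^ 2 := by
    have : l0 ≤ δ := min_le_left _ _
    gcongr
  have hl0l : l0 ^ 2 ≤ l1 ^ 2 / 4 := by
    have h3 : l0 ≤ l1 / 2 := min_le_right _ _
    calc l0 ^ 2 ≤ (l1 / 2) ^ 2 := by gcongr
      _ = l1 ^ 2 / 4 := by ring
  have hl12 : 0 < l1 ^ 2 := by positivity
  have hd2 : 0 < (1 - 1 / 2) * l1 ^ 2 - l0 ^ 2 := by linarith only [hl0l, hl12]
  have hδ2 : 0 < δ ^ 2 := by positivity
  have hd3 : 0 < 4 * δ ^ 2 - l0 ^ 2 := by linarith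
  have hP2 : 0 ≤ CV * (4 / ((1 - 1 / 2) * l1 ^ 2 - l0 ^ 2)) := by positivity
  have hP3 : 0 ≤ CT * (4 / (4 * δ ^ 2 - l0 ^ 2)) := by positivity
  refine ⟨l0, CV * (4 / ((1 - 1 / 2) * l1 ^ 2 - l0 ^ 2)) + CT * (4 / (4 * δ ^ 2 - l0 ^ 2)), pV,
    hl00, ?_, ?_⟩
  · intro t ht
    refine (hV t ht).trans ((Q_absorb (m' := l0 ^ 2) hCV (by linarith) ht).trans ?_)
    have h5 : CV * (4 / ((1 - 1 / 2) * l1 ^ 2 - l0 ^ 2))
        ≤ CV * (4 / ((1 - 1 / 2) * l1 ^ 2 - l0 ^ 2)) + CT * (4 / (4 * δ ^ 2 - l0 ^ 2)) := by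
      linarith only [hP3]
    gcongr
  · intro a t ha hat
    have ht : 0 < t := ha.trans hat
    have hs : 0 < t - a := by linarith only [hat]
    refine (hT a t ha hat).trans ?_
    have h4 : δ ^ 2 / (t - a) = (4 * δ ^ 2) / (4 * (t - a)) := by field_simp
    rw [h4]
    have h5 := absorb (m := 4 * δ ^ 2) (m' := l0 ^ 2) (by linarith only [hl0δ, hδ2]) hs
    have h6 : Real.exp (-(l0 ^ 2 / (4 * (t - a)))) ≤ Real.exp (-(l0 ^ 2 / (4 * t))) := by
      have h7 : t - a ≤ t := by linarith only [ha]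
      gcongr
    have h8 : 1 ≤ (1 + t) ^ pV := one_le_pow₀ (by linarith only [ha, hat])
    have h9 : CT * (4 / (4 * δ ^ 2 - l0 ^ 2))
        ≤ CV * (4 / ((1 - 1 / 2) * l1 ^ 2 - l0 ^ 2)) + CT * (4 / (4 * δ ^ 2 - l0 ^ 2)) := by
      linarith only [hP2]
    calc CT * (Real.exp (-(4 * δ ^ 2 / (4 * (t - a)))) / (t - a))
        ≤ CT * (4 / (4 * δ ^ 2 - l0 ^ 2) * Real.exp (-(l0 ^ 2 / (4 * (t - a))))) := by gcongr
      _ ≤ CT * (4 / (4 * δ ^ 2 - l0 ^ 2) * Real.exp (-(l0 ^ 2 / (4 * t)))) := by gcongr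
      _ = CT * (4 / (4 * δ ^ 2 - l0 ^ 2)) * 1 * Real.exp (-(l0 ^ 2 / (4 * t))) := by ring
      _ ≤ _ := by gcongr

end Pool.Agent.XQ.AH.H69
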