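import Pool.Agent.Helper16_XQ.StmtD
import Pool.Agent.Helper35_AEU.Inv
import Pool.Agent.Helper96_AEU.DeathP

/-! Squad XQ, module DPX: the death formula for polygons without parallel sides. -/

set_option autoImplicit false

namespace Pool.Agent.XQ

open MeasureTheory Complex Filter Topology ProbabilityTheory Pool.Agent.H16Iso Pool.Agent.H62T
open Pool.Agent.H16F (Sublin ind)
open Pool.Agent.AEU

/-- two quadratic polynomials which agree near zero are equal -/
theorem quad_eq {a b c a' b' c' r : ℝ} (hr : 0 < r)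
    (h : ∀ s : ℝ, 0 < s → s < r → a + b * s + c * s ^ 2 = a' + b' * s + c' * s ^ 2) :
    a + b + c = a' + b' + c' := by
  have h1 := h (r / 2) (by linarith) (by linarith)
  have h2 := h (r / 3) (by linarith) (by linarith)
  have h3 := h (r / 4) (by linarith) (by linarith)
  have hr0 : r ≠ 0 := hr.ne'
  have e1 : (c - c') * r ^ 2 = 0 := by nlinarith
  have e2 : c = c' := by
    rcases mul_eq_zero.1 e1 with h | h
    · linarith
    · exact absurd h (pow_ne_zero 2 hr0)
  subst e2
  have e3 : (b - b') * r = 0 := by nlinarith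
  have e4 : b = b' := by
    rcases mul_eq_zero.1 e3 with h | h
    · linarith
    · exact absurd h hr0
  subst e4
  linarith

theorem form_smul (X : Finset HP) (w0 : ℝ) (w1 : HP → ℝ) (w2 : HP → HP → ℝ) (h : ℂ → ℝ) (s : ℝ) :
    w0 + ∑ r ∈ X, w1 r * (s * h r.1) + ∑ r ∈ X, ∑ r' ∈ X, w2 r r' * ((s * h r.1) * (s * h r'.1))
      = w0 + (∑ r ∈ X, w1 r * h r.1) * s
        + (∑ r ∈ X, ∑ r' ∈ X, w2 r r' * (h r.1 * h r'.1)) * s ^ 2 := by
  rw [Finset.sum_mul, Finset.sum_mul]
  congr 1
  · congr 1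
    exact Finset.sum_congr rfl fun r _ => by ring
  · refine Finset.sum_congr rfl fun r _ => ?_
    rw [Finset.sum_mul]
    exact Finset.sum_congr rfl fun r' _ => by ring

theorem noTie_smul {X : Finset HP} {h : ℂ → ℝ} (hn : NoTie X h) {s : ℝ} (hs : 0 < s) :
    NoTie X fun w => s * h w := by
  intro σ x hσ T hT hc
  obtain ⟨r, hr, hne⟩ := hn (σ * s) x (mul_pos hσ hs) T hT hc
  refine ⟨r, hr, fun he => hne ?_⟩
  rw [← he]
  ring

theorem dpx : DpxStatement := by
  classical
  intro X q hX hnp hq h hh hn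
  obtain ⟨w0, w1, w2, hw⟩ := H96.death X hX hnp
  obtain ⟨v0, v1, v2, hv⟩ := hq.form
  obtain ⟨r, hr, hsm⟩ := hq.small
  have hz : ∀ S : Finset HP, ∃ m : ℝ, 0 < m ∧ ∀ h : ℂ → ℝ, (∀ s ∈ S, |h s.1| < m) → Zs S h = 0 :=
    H35.Zs_small
  choose m hm hmz using hz
  obtain ⟨m0, hm0, hmm⟩ := H35.fin_pos (X.powersetCard 3) m fun S _ => hm S
  set B : ℝ := 1 + ∑ s ∈ X, |h s.1| with hB
  have hB0 : 0 < B := by
    have : 0 ≤ ∑ s ∈ X, |h s.1| := Finset.sum_nonneg fun _ _ => abs_nonneg _
    linarith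
  have hhB : ∀ s ∈ X, |h s.1| < B := by
    intro s hs
    have := Finset.single_le_sum (f := fun s : HP => |h s.1|) (fun i _ => abs_nonneg _) hs
    linarith
  have key := quad_eq (a := w0) (b := ∑ r ∈ X, w1 r * h r.1)
    (c := ∑ r ∈ X, ∑ r' ∈ X, w2 r r' * (h r.1 * h r'.1)) (a' := v0)
    (b' := ∑ r ∈ X, v1 r * h r.1) (c' := ∑ r ∈ X, ∑ r' ∈ X, v2 r r' * (h r.1 * h r'.1))
    (r := min r m0 / B) (div_pos (lt_min hr hm0) hB0) (by
      intro s hs hs'
      rw [lt_div_iff₀ hB0] at hs'
      have hsb : ∀ t ∈ X, |s * h t.1| < min r m0 := by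
        intro t ht
        rw [abs_mul, abs_of_pos hs]
        have := hhB t ht
        nlinarith
      rw [← form_smul, ← form_smul]
      have e1 := hsm (fun w => s * h w) (H16F.H10.sublin_smul hh hs.le) fun t ht =>
        (lt_of_lt_of_le (hsb t ht) (min_le_left _ _)).le
      have e2 := hw (fun w => s * h w) (H16F.H10.sublin_smul hh hs.le) (noTie_smul hn hs)
      have e3 : ∑ S ∈ X.powersetCard 3, ind (Ev X S fun w => s * h w) * Zs S (fun w => s * h w)
          = 0 := by
        refine Finset.sum_eq_zero fun S hS => ?_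
        rw [hmz S (fun w => s * h w) ?_, mul_zero]
        intro t ht
        have h1 := hsb t ((Finset.mem_powersetCard.1 hS).1 ht)
        have h2 := hmm S hS
        have h3 := min_le_right r m0
        linarith
      rw [e3, add_zero] at e2
      rw [hv] at e1
      unfold VX at e1
      rw [← e1, ← e2])
  have e4 := hw h hh hn
  rw [hv]
  unfold VX
  rw [e4]
  linarith

end Pool.Agent.XQ
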